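import Pool.Agent.H3.SF.Targets
import Pool.Agent.H14.SQ.ORD
import Pool.Agent.H14.SQ.SEM

/-!
MP_634266_nt, board spw, row LGD: the number of representations and the local density.
-/

set_option autoImplicit false

namespace Pool.Agent.H74.SF

open Finset Filter Topology Pool.Agent.H3.SF Pool.Agent.H99.SQ

/-- the set of the pairs counted by `NP` -/
noncomputable def NS (x W P n : ℕ) : Finset (ℕ × ℕ) := by
  classical exact (((range (Nat.log 2 x + 1)) ×ˢ (range (W + 1))).filter fun q =>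
    OP q.2 ∧ ¬ mm q.2 ∣ P ∧ Kill q.2 n q.1)

theorem NP_eq (x W P n : ℕ) : NP x W P n = (NS x W P n).card := rfl

theorem mem_NS (x W P n : ℕ) (q : ℕ × ℕ) : q ∈ NS x W P n ↔
    (q.1 ≤ Nat.log 2 x ∧ q.2 ≤ W) ∧ OP q.2 ∧ ¬ mm q.2 ∣ P ∧ Kill q.2 n q.1 := by
  classical
  unfold NS
  rw [mem_filter, mem_product, mem_range, mem_range, Nat.lt_succ_iff, Nat.lt_succ_iff]

/-- the set of the exponents counted by `UC` -/
noncomputable def US (F : Finset ℕ) (n N : ℕ) : Finset ℕ := by
  classical exact ((range N).filter fun l => ∀ p ∈ F, ¬ Kill p n l)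

theorem UC_eq (F : Finset ℕ) (n N : ℕ) : UC F n N = (US F n N).card := rfl

theorem mem_US (F : Finset ℕ) (n N l : ℕ) : l ∈ US F n N ↔
    l < N ∧ ∀ p ∈ F, ¬ Kill p n l := by
  classical
  unfold US
  rw [mem_filter, mem_range]

/-- the primes of small period cannot kill many exponents -/
theorem SS_le {x n P W : ℕ} {G : Finset ℕ} (hnx : Nat.log 2 n ≤ Nat.log 2 x)
    (hn0 : n ≠ 0) (hW : ∀ l p, 2 ^ l < n → p.Prime → p ^ 2 ∣ n - 2 ^ l → p ≤ W)
    (hG : ∀ p ∈ G, OP p ∧ mm p ≤ Nat.log 2 n ∧ ¬ mm p ∣ P) :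
    ((Nat.log 2 x + 1 : ℕ) : ℝ) / 2 * SS G n ≤ NP x W P n := by
  classical
  set N := Nat.log 2 x + 1 with hN
  -- the killed class
  have hl0 : ∀ p, ∃ l0 : ℕ, p ∈ G → (∃ l, Kill p n l) → l0 < mm p ∧ Kill p n l0 := by
    intro p
    by_cases hp : p ∈ G ∧ ∃ l, Kill p n l
    · obtain ⟨hpG, l, hl⟩ := hp
      obtain ⟨h0, -, -, h1, -⟩ := Pool.Agent.H14.SQ.pf_ORD p (hG p hpG).1
      refine ⟨l % mm p, fun _ _ => ⟨Nat.mod_lt _ h0, ?_⟩⟩
      unfold Kill at hl ⊢
      rw [hl]
      exact (h1 l (l % mm p)).mpr (Nat.mod_modEq l _).symm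
    · exact ⟨0, fun h1 h2 => absurd ⟨h1, h2⟩ hp⟩
  choose l0 hl0 using hl0
  set G' := G.filter (fun p => ∃ l, Kill p n l) with hG'
  have hSS : SS G n = ∑ p ∈ G', (1 : ℝ) / mm p := by
    unfold SS
    rw [hG', Finset.sum_filter]
    apply Finset.sum_congr rfl
    intro p _
    unfold ci
    split_ifs <;> simp
  set A : Finset ((_ : ℕ) × ℕ) := G'.sigma (fun p => range (N / mm p)) with hA
  have hcard : A.card = ∑ p ∈ G', N / mm p := by
    rw [hA, Finset.card_sigma]
    simp
  have hle : A.card ≤ (NS x W P n).card := by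
    apply Finset.card_le_card_of_injOn (fun a => (l0 a.1 + mm a.1 * a.2, a.1))
    · rintro ⟨p, k⟩ ha
      rw [hA, Finset.mem_coe, Finset.mem_sigma] at ha
      obtain ⟨hp, hk⟩ := ha
      rw [hG', mem_filter] at hp
      obtain ⟨hpG, hex⟩ := hp
      obtain ⟨h1, h2⟩ := hl0 p hpG hex
      obtain ⟨h3, h4, h5⟩ := hG p hpG
      obtain ⟨-, -, -, h6, -⟩ := Pool.Agent.H14.SQ.pf_ORD p h3
      rw [Finset.mem_coe, mem_NS]
      refine ⟨⟨?_, ?_⟩, h3, h5, ?_⟩
      · have hk' : k < N / mm p := Finset.mem_range.mp hk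
        have h7 : mm p * (k + 1) ≤ mm p * (N / mm p) := Nat.mul_le_mul_left _ hk'
        have h8 : mm p * (N / mm p) ≤ N := Nat.mul_div_le _ _
        have h9 : mm p * (k + 1) = mm p * k + mm p := by ring
        change l0 p + mm p * k ≤ Nat.log 2 x
        omega
      · change p ≤ W
        have h7 : 2 ^ l0 p < n := by
          have h8 : 2 ^ l0 p < 2 ^ Nat.log 2 n :=
            Nat.pow_lt_pow_right (by norm_num) (lt_of_lt_of_le h1 h4)
          exact lt_of_lt_of_le h8 (Nat.pow_log_le_self 2 hn0)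
        exact hW (l0 p) p h7 h3.1 ((Pool.Agent.H14.SQ.kill_iff p n _ h7.le).mp h2)
      · change Kill p n (l0 p + mm p * k)
        unfold Kill at h2 ⊢
        rw [h2]
        apply (h6 _ _).mpr
        rw [Nat.ModEq, Nat.add_mul_mod_self_left]
    · rintro ⟨p, k⟩ ha ⟨p', k'⟩ ha' he
      rw [hA, Finset.mem_coe, Finset.mem_sigma] at ha
      simp only [Prod.mk.injEq] at he
      obtain ⟨h1, h2⟩ := he
      subst h2
      obtain ⟨hp, -⟩ := ha
      rw [hG', mem_filter] at hp
      obtain ⟨h0, -⟩ := Pool.Agent.H14.SQ.pf_ORD p (hG p hp.1).1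
      have h3 : mm p * k = mm p * k' := by omega
      rw [Nat.eq_of_mul_eq_mul_left h0 h3]
  rw [NP_eq, hSS, Finset.mul_sum]
  have h10 : (∑ p ∈ G', ((N / mm p : ℕ) : ℝ)) ≤ ((NS x W P n).card : ℝ) := by
    rw [← Nat.cast_sum, ← hcard]
    exact_mod_cast hle
  refine le_trans (Finset.sum_le_sum fun p hp => ?_) h10
  rw [hG', mem_filter] at hp
  obtain ⟨h3, h4, -⟩ := hG p hp.1
  obtain ⟨h0, -⟩ := Pool.Agent.H14.SQ.pf_ORD p h3
  have h0' : (0 : ℝ) < mm p := by exact_mod_cast h0
  have h11 : 1 ≤ N / mm p := (Nat.one_le_div_iff h0).mpr (by omega)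
  have h12 : N < mm p * (N / mm p) + mm p := by
    have := Nat.div_add_mod N (mm p)
    have := Nat.mod_lt N h0
    omega
  have h13 : (N : ℝ) ≤ 2 * (mm p * ((N / mm p : ℕ) : ℝ)) := by
    have h14 : mm p * 1 ≤ mm p * (N / mm p) := Nat.mul_le_mul_left _ h11
    have h15 : N ≤ 2 * (mm p * (N / mm p)) := by omega
    exact_mod_cast h15
  rw [mul_one_div, div_le_iff₀ h0']
  linarith

/-- row LGD -/
theorem pf_LGD (hFPB : T_FPB) (hUUF : T_UUF) (hUUD : T_UUD) : T_LGD := by
  classical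
  intro x n Z W η F hodd hn1 hnx hlog hP hZ hW hNP hF
  set P := P0 Z 1 with hPd
  set Lam := Nat.log 2 n with hLam
  set L := Nat.log 2 x with hL
  have hP0 : 0 < P := by
    rw [hPd]
    unfold P0
    exact pow_pos (Nat.lcmUpto_pos Z) _
  have hn0 : n ≠ 0 := by omega
  have hLL : Lam ≤ L := Nat.log_mono_right hnx
  have hLam1 : 1 ≤ Lam := by
    rw [hLam]
    exact (Nat.le_log_iff_pow_le (by norm_num) hn0).mpr (by omega)
  have hpow : 2 ^ Lam ≤ n := Nat.pow_log_le_self 2 hn0
  obtain ⟨hF1, -⟩ := hFPB P hP0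
  obtain ⟨s1, -, s3, s4⟩ := Pool.Agent.H14.SQ.pf_SEM
  obtain ⟨⟨hU0, hU1⟩, hU2, -⟩ := hUUF (FP P) n (fun p hp => ((hF1 p).mp hp).1)
  have hU3 := hU2 P (Lam + 1) hP0 (fun p hp => ((hF1 p).mp hp).2)
  have hsub : FP P ⊆ F := by
    intro p hp
    have h1 := (hF1 p).mp hp
    exact (hF p).mpr ⟨h1.1, (Nat.le_of_dvd hP0 h1.2).trans hP⟩
  obtain ⟨d1, d2⟩ := hUUD (FP P) F n (fun p hp => ((hF p).mp hp).1) hsub
  refine ⟨?_, d1, ?_⟩
  · -- the number of representations
    have hRf : (RR n).Finite := RR_finite n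
    -- upper bound
    have hup : rep n ≤ UC (FP P) n (Lam + 1) := by
      rw [UC_eq, ← Set.ncard_coe_finset]
      unfold rep
      apply Set.ncard_le_ncard _ (Finset.finite_toSet _)
      intro l hl
      rw [Finset.mem_coe, mem_US]
      refine ⟨?_, ?_⟩
      · have h1 : l ≤ Lam := (Nat.le_log_iff_pow_le (by norm_num) hn0).mpr hl.1.le
        omega
      · intro p hp hK
        exact s4 n l p ((hF1 p).mp hp).1 hK hl
    -- lower bound
    have hlow : UC (FP P) n (Lam + 1) ≤ 1 + rep n + NP x W P n := by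
      have hcov : US (FP P) n (Lam + 1) ⊆
          ({0} ∪ hRf.toFinset) ∪ (NS x W P n).image Prod.fst := by
        intro l hl
        rw [mem_US] at hl
        obtain ⟨hl1, hl2⟩ := hl
        rw [mem_union, mem_union, mem_singleton, Set.Finite.mem_toFinset, mem_image]
        by_cases h0 : l = 0
        · exact Or.inl (Or.inl h0)
        · by_cases hR : l ∈ RR n
          · exact Or.inl (Or.inr hR)
          · right
            have h2 : 2 ^ l ≤ n :=
              (Nat.pow_le_pow_right (by norm_num) (by omega)).trans hpow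
            have h3 : 2 ^ l < n := by
              rcases h2.lt_or_eq with h | h
              · exact h
              · exfalso
                rw [← h] at hodd
                have : Even (2 ^ l) := (Nat.even_pow.mpr ⟨even_two, h0⟩)
                exact (Nat.not_even_iff_odd.mpr hodd) this
            obtain ⟨p, hp1, -, hp3⟩ := s3 n l hodd (by omega) h3 hR
            refine ⟨(l, p), ?_, rfl⟩
            rw [mem_NS]
            refine ⟨⟨by change l ≤ Nat.log 2 x; omega, ?_⟩, hp1, ?_, hp3⟩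
            · exact hW l p h3 hp1.1 ((s1 p n l h2).mp hp3)
            · intro hd
              exact hl2 p ((hF1 p).mpr ⟨hp1, hd⟩) hp3
      rw [UC_eq]
      have h1 := Finset.card_le_card hcov
      have h2 := Finset.card_union_le ({0} ∪ hRf.toFinset) ((NS x W P n).image Prod.fst)
      have h3 := Finset.card_union_le ({0} : Finset ℕ) hRf.toFinset
      have h4 : ((NS x W P n).image Prod.fst).card ≤ (NS x W P n).card := Finset.card_image_le
      have h5 : hRf.toFinset.card = rep n := (Set.ncard_eq_toFinset_card _ hRf).symm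
      have h6 : ({0} : Finset ℕ).card = 1 := Finset.card_singleton 0
      rw [NP_eq]
      omega
    have hup' : (rep n : ℝ) ≤ UC (FP P) n (Lam + 1) := by exact_mod_cast hup
    have hlow' : (UC (FP P) n (Lam + 1) : ℝ) ≤ 1 + rep n + NP x W P n := by
      exact_mod_cast hlow
    have hNP0 : (0 : ℝ) ≤ NP x W P n := Nat.cast_nonneg _
    obtain ⟨b1, b2⟩ := abs_le.mp hU3
    push_cast at b1 b2
    rw [abs_le]
    constructor <;> nlinarith
  · -- the sum over the primes of small period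
    have hGp : ∀ p ∈ F \ FP P, OP p ∧ mm p ≤ Nat.log 2 n ∧ ¬ mm p ∣ P := by
      intro p hp
      rw [Finset.mem_sdiff] at hp
      have h1 := (hF p).mp hp.1
      exact ⟨h1.1, h1.2, fun hd => hp.2 ((hF1 p).mpr ⟨h1.1, hd⟩)⟩
    have h1 := SS_le (x := x) (P := P) (W := W) hLL hn0 hW hGp
    have h2 := h1.trans hNP
    have hNP0 : (0 : ℝ) ≤ NP x W P n := Nat.cast_nonneg _
    have hL1 : (1 : ℝ) ≤ (L : ℝ) := by exact_mod_cast hLam1.trans hLL
    have hη : 0 ≤ η := by
      by_contra hcon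
      have : η * L < 0 := mul_neg_of_neg_of_pos (not_le.mp hcon) (by linarith)
      linarith
    have h3 : ((Nat.log 2 x + 1 : ℕ) : ℝ) = (L : ℝ) + 1 := by push_cast; rfl
    rw [h3] at h2
    have h4 : ((L : ℝ) + 1) * SS (F \ FP P) n ≤ ((L : ℝ) + 1) * (2 * η) := by
      nlinarith
    have h5 := le_of_mul_le_mul_left h4 (by linarith)
    linarith

end Pool.Agent.H74.SF
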