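import Pool.Agent.H45.SF.UT

/-!
# Module UE: the lift for one element of the partition
-/

open Ordinal Cardinal Order Set
open scoped ZFSet

namespace SF

private theorem ue_le {N' N : V} {B : V} [IsCBA B] {b : El B} {σ : V → V → El B}
    (h : BMap N' N b σ) (x y : V) : σ x y ≤ b := by
  by_cases h0 : σ x y = ⊥
  · rw [h0]; exact bot_le
  · rw [← h.tot x (h.dom x y h0).1]
    exact le_iSup (fun y => σ x y) y

theorem pf_UE (hUA : T_UA) : T_UE := by
  intro κ Z i N' N w p' p G' u0 K n c c' b τ hb hmap hp hw hu hu' hcom hsc q hq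
  have e1 : τ (K.B n) c.v.A.B = b ∧ τ (K.x n) c.x.val = b := by
    obtain ⟨c2, -, h2, h3⟩ := K.k1 c.v.A b τ hmap hb hp n c.code (by rw [hu]; exact hb)
    have h4 : c2 = c := hUA.2.1 c2 c h2
    rw [h4, hu] at h3
    exact ⟨le_antisymm (ue_le hmap _ _) (le_trans h3 (le_trans inf_le_right inf_le_left)),
      le_antisymm (ue_le hmap _ _) (le_trans h3 inf_le_left)⟩
  have e2 : τ (K.B (n + 1)) c'.v.A.B = b := by
    obtain ⟨c2, -, h2, h3⟩ := K.k1 c.v.A b τ hmap hb hp (n + 1) c'.code (by rw [hu']; exact hb)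
    have h4 : c2 = c' := hUA.2.1 c2 c' h2
    rw [h4, hu'] at h3
    exact le_antisymm (ue_le hmap _ _) (le_trans h3 (le_trans inf_le_right inf_le_left))
  obtain ⟨k, s, hk, hgood, h5⟩ := K.k2 c.v.A b τ hmap hb hp n c c'
    (by rw [hu, hu', inf_idem]; exact hb)
  rw [hu, hu', inf_idem] at h5
  have e3 : τ (K.h n) k.gr = b := le_antisymm (ue_le hmap _ _) (le_trans h5 inf_le_left)
  have e4 : τ (K.t n) s = b := le_antisymm (ue_le hmap _ _) (le_trans h5 inf_le_right)
  let F : Frame k s :=
    { N' := N'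
      N := N
      b := b
      σ := τ
      w := w
      B' := K.B n
      C' := K.B (n + 1)
      h' := K.h n
      p' := K.t n
      G' := K.G (n + 1)
      np := K.np
      ne := hb
      map := hmap
      kw := hw
      kB := e1.1
      kC := e2
      kh := e3
      kp := e4
      gen := K.gen (n + 1)
      top := ⟨K.x n, K.x (n + 1), K.hx n, K.xG (n + 1)⟩
      com := fun x y hxy hy z => hcom x (K.hG n x y hxy hy) z
      sc := by
        intro r hr
        obtain ⟨r2, hr2, h6⟩ := K.ev (n + 1) r hr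
        rw [h6]
        exact hsc r2 hr2 }
  obtain ⟨e, σ', hl⟩ := hgood F q hq
  exact ⟨k, hk, e, σ', hl.le, hl.proj, hl.map, hl.com, hl.keep⟩

end SF
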